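import Pool.Agent.helper52.T1.SpecS

/-!
# T1, row t1:CVR: many windows
-/

set_option autoImplicit false

open scoped MatrixGroups ContDiff Topology UpperHalfPlane ComplexConjugate
open UpperHalfPlane MeasureTheory Filter Set

namespace Pool.Agent.T1

open Pool.Agent.RS Pool.Agent.MS Pool.Agent.HV
open Pool.Agent.EN (XG MG mkX mkM fl pr)

noncomputable section

lemma CVR_mono (p : ℕ → Bool) {s t a b : ℕ} (h1 : s ≤ a) (h2 : b ≤ t) : Kc p a b ≤ Kc p s t := by
  unfold Kc
  exact Finset.card_le_card (Finset.filter_subset_filter _ (Finset.Ico_subset_Ico h1 h2))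

lemma CVR_add (p : ℕ → Bool) (s u t : ℕ) : Kc p s t ≤ Kc p s u + Kc p u t := by
  unfold Kc
  refine le_trans (Finset.card_le_card ?_) (Finset.card_union_le _ _)
  intro i hi
  rw [Finset.mem_filter, Finset.mem_Ico] at hi
  rw [Finset.mem_union, Finset.mem_filter, Finset.mem_filter, Finset.mem_Ico, Finset.mem_Ico]
  rcases lt_or_ge i u with h | h
  · exact Or.inl ⟨⟨hi.1.1, h⟩, hi.2⟩
  · exact Or.inr ⟨⟨h, hi.1.2⟩, hi.2⟩

lemma CVR_le (p : ℕ → Bool) (s t : ℕ) : Kc p s t ≤ t - s := by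
  unfold Kc
  refine (Finset.card_filter_le _ _).trans ?_
  rw [Nat.card_Ico]

lemma CVR_zero (p : ℕ → Bool) (x y : ℕ) (h : ∀ i < y, p (x + i) = false) :
    Kc p x (x + y) = 0 := by
  unfold Kc
  rw [Finset.card_eq_zero, Finset.filter_eq_empty_iff]
  intro i hi hp
  rw [Finset.mem_Ico] at hi
  have h1 := h (i - x) (by omega)
  rw [show x + (i - x) = i by omega, hp] at h1
  exact Bool.noConfusion h1

lemma CVR_blk (p : ℕ → Bool) (s t L : ℕ) (h : Cut p s t L) : ∀ n : ℕ, Cut p s (t + n) L := by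
  intro n
  induction n with
  | zero => exact h
  | succ n ih => exact Cut.blk s (t + n) L ih

/-- sorted windows with single blocks between them -/
lemma CVR_cut (p : ℕ → Bool) (A R : ℕ → ℕ) (u : Finset ℕ) : ∀ M : ℕ,
    (∀ b ∈ u, Win p (A b) (R b) ∧ A b + 202 * R b ≤ M) →
    (∀ b ∈ u, ∀ c ∈ u, b ≠ c → A b + 202 * R b ≤ A c ∨ A c + 202 * R c ≤ A b) →
    Cut p 0 M (∑ b ∈ u, 202 * R b) := by
  classical
  refine Finset.induction_on_max_value A (motive := fun u => ∀ M : ℕ,
    (∀ b ∈ u, Win p (A b) (R b) ∧ A b + 202 * R b ≤ M) →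
    (∀ b ∈ u, ∀ c ∈ u, b ≠ c → A b + 202 * R b ≤ A c ∨ A c + 202 * R c ≤ A b) →
    Cut p 0 M (∑ b ∈ u, 202 * R b)) u ?_ ?_
  · intro M _ _
    rw [Finset.sum_empty]
    have h := CVR_blk p 0 0 0 (Cut.nil 0) M
    rw [Nat.zero_add] at h
    exact h
  · intro a v hav hmax ih M hW hD
    have ha := hW a (Finset.mem_insert_self a v)
    have hR : 1 ≤ R a := ha.1.r1
    have h1 := ih (A a) ?_ ?_
    · have h2 := Cut.win 0 (A a) _ (R a) h1 ha.1
      have h3 := CVR_blk p 0 _ _ h2 (M - (A a + 202 * R a))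
      rw [show A a + 202 * R a + (M - (A a + 202 * R a)) = M by omega] at h3
      rw [Finset.sum_insert hav, Nat.add_comm]
      exact h3
    · intro b hb
      refine ⟨(hW b (Finset.mem_insert_of_mem hb)).1, ?_⟩
      have hne : b ≠ a := by
        rintro rfl
        exact hav hb
      have h2 := hmax b hb
      rcases hD b (Finset.mem_insert_of_mem hb) a (Finset.mem_insert_self a v) hne with h3 | h3
      · exact h3
      · omega
    · intro b hb c hc hbc
      exact hD b (Finset.mem_insert_of_mem hb) c (Finset.mem_insert_of_mem hc) hbc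

/-- a window near a deep point -/
lemma CVR_local (M : ℕ) (p : ℕ → Bool) (hM : M ≤ 100 * Kc p (M / 2) M) (x : ℕ) (hx : 2 * x < M)
    (hd : ∀ i < 100000, p (x + i) = false) :
    ∃ s t r : ℕ, s ≤ x ∧ x < t ∧ t ≤ M ∧ s + 202 * r ≤ t ∧ t ≤ s + 1011 * r ∧
      Win p (t - 202 * r) r := by
  classical
  have hz := CVR_zero p x 100000 hd
  have hxM : x + 100000 ≤ M := by
    by_contra hcon
    have h1 := CVR_mono p (s := x) (t := x + 100000) (a := M / 2) (b := M) (by omega) (by omega)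
    omega
  obtain ⟨F, hF⟩ : ∃ F : Finset (ℕ × ℕ), F =
      ((Finset.range (M + 1)) ×ˢ (Finset.range (M + 1))).filter (fun z =>
        z.1 ≤ x ∧ x < z.2 ∧ 2000 * Kc p z.1 z.2 ≤ z.2 - z.1) := ⟨_, rfl⟩
  have hFm : ∀ z : ℕ × ℕ, z ∈ F ↔ (z.1 < M + 1 ∧ z.2 < M + 1) ∧
      (z.1 ≤ x ∧ x < z.2 ∧ 2000 * Kc p z.1 z.2 ≤ z.2 - z.1) := by
    intro z
    rw [hF, Finset.mem_filter, Finset.mem_product, Finset.mem_range, Finset.mem_range]
  have hne : F.Nonempty := by
    refine ⟨(x, x + 100000), ?_⟩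
    rw [hFm]
    dsimp only
    refine ⟨⟨by omega, by omega⟩, le_refl _, by omega, ?_⟩
    rw [hz]
    omega
  obtain ⟨z, hz1, hz2⟩ := Finset.exists_max_image F (fun z => z.2 - z.1) hne
  obtain ⟨s, e⟩ := z
  rw [hFm] at hz1
  dsimp only at hz1 hz2
  obtain ⟨⟨h1, h2⟩, h3, h4, h5⟩ := hz1
  have hy : 100000 ≤ e - s := by
    have h6 := hz2 (x, x + 100000) (by
      rw [hFm]
      dsimp only
      refine ⟨⟨by omega, by omega⟩, le_refl _, by omega, ?_⟩
      rw [hz]
      omega)
    dsimp only at h6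
    omega
  obtain ⟨r, hr⟩ : ∃ r, r = (e - s) / 1000 := ⟨_, rfl⟩
  have hr1 : 1000 * r ≤ e - s := by omega
  have hr2 : e - s < 1000 * r + 1000 := by omega
  have hr3 : 100 ≤ r := by omega
  have heM : e + r ≤ M := by
    by_contra hcon
    have h6 := CVR_mono p (s := s) (t := M) (a := M / 2) (b := M) (by omega) (le_refl _)
    have h7 := CVR_add p s e M
    have h8 := CVR_le p e M
    omega
  have hmx : 2000 * Kc p s (e + r) > e + r - s := by
    by_contra hcon
    have h6 := hz2 (s, e + r) (by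
      rw [hFm]
      dsimp only
      refine ⟨⟨by omega, by omega⟩, h3, by omega, by omega⟩)
    dsimp only at h6
    omega
  have h7 := CVR_add p s e (e + r)
  have hsub : e + r - 202 * r = e - 201 * r := by omega
  refine ⟨s, e + r, r, h3, by omega, heM, by omega, by omega, ?_⟩
  refine ⟨by omega, ?_, ?_, ?_⟩
  · have h8 := CVR_mono p (s := s) (t := e) (a := e + r - 202 * r)
      (b := e + r - 202 * r + 101 * r) (by omega) (by omega)
    omega
  · have h8 := CVR_mono p (s := s) (t := e) (a := e + r - 202 * r + 101 * r)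
      (b := e + r - 202 * r + 201 * r) (by omega) (by omega)
    omega
  · rw [show e + r - 202 * r + 201 * r = e by omega,
      show e + r - 202 * r + 202 * r = e + r by omega]
    omega

theorem CVR_proof : CVR_stmt := by
  classical
  refine ⟨100000, by norm_num, ?_⟩
  intro M p S hS hM
  have hloc : ∀ x : ℕ, ∃ s t r : ℕ, x ∈ S → (s ≤ x ∧ x < t ∧ t ≤ M ∧ s + 202 * r ≤ t ∧
      t ≤ s + 1011 * r ∧ Win p (t - 202 * r) r) := by
    intro x
    by_cases hx : x ∈ S
    · obtain ⟨s, t, r, h⟩ := CVR_local M p hM x (hS x hx).1 (hS x hx).2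
      exact ⟨s, t, r, fun _ => h⟩
    · exact ⟨0, 0, 0, fun h => absurd h hx⟩
  choose s t r hst using hloc
  obtain ⟨u, hu, hdisj, hcov⟩ := Vitali.exists_disjoint_subfamily_covering_enlargement
    (fun x : ℕ => Set.Ico (s x) (t x)) (S : Set ℕ) (fun x => ((t x - s x : ℕ) : ℝ)) (11 / 10)
    (by norm_num) (fun a _ => Nat.cast_nonneg _) (M : ℝ)
    (by
      intro a ha
      have h1 := (hst a ha).2.2.1
      have h2 : t a - s a ≤ M := by omega
      exact_mod_cast h2)
    (by
      intro a ha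
      exact ⟨a, (hst a ha).1, (hst a ha).2.1⟩)
  obtain ⟨U, hU⟩ : ∃ U : Finset ℕ, U = S.filter (fun x => x ∈ u) := ⟨_, rfl⟩
  have hUm : ∀ b : ℕ, b ∈ U ↔ b ∈ S ∧ b ∈ u := by
    intro b
    rw [hU, Finset.mem_filter]
  refine ⟨∑ b ∈ U, 202 * r b, ?_, ?_⟩
  · refine CVR_cut p (fun b => t b - 202 * r b) r U M ?_ ?_
    · intro b hb
      have h1 := hst b ((hUm b).1 hb).1
      refine ⟨h1.2.2.2.2.2, ?_⟩
      omega
    · intro b hb c hc hbc
      have h1 := hst b ((hUm b).1 hb).1
      have h2 := hst c ((hUm c).1 hc).1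
      have h3 : Disjoint (Set.Ico (s b) (t b)) (Set.Ico (s c) (t c)) :=
        hdisj ((hUm b).1 hb).2 ((hUm c).1 hc).2 hbc
      rw [Set.Ico_disjoint_Ico] at h3
      omega
  · have hsub : S ⊆ U.biUnion (fun b => Finset.Ico (s b - 11 * (t b - s b) / 10)
        (t b + 11 * (t b - s b) / 10)) := by
      intro x hx
      obtain ⟨b, hb, ⟨y, hy1, hy2⟩, hδ⟩ := hcov x hx
      have hbS : b ∈ S := hu hb
      have h1 := hst x hx
      have h2 := hst b hbS
      have h3 : 10 * (t x - s x) ≤ 11 * (t b - s b) := by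
        have h4 : (10 : ℝ) * ((t x - s x : ℕ) : ℝ) ≤ 11 * ((t b - s b : ℕ) : ℝ) := by
          linarith
        exact_mod_cast h4
      have h5 : t x - s x ≤ 11 * (t b - s b) / 10 := by omega
      have hy1a : s x ≤ y := hy1.1
      have hy1b : y < t x := hy1.2
      have hy2a : s b ≤ y := hy2.1
      have hy2b : y < t b := hy2.2
      rw [Finset.mem_biUnion]
      refine ⟨b, (hUm b).2 ⟨hbS, hb⟩, ?_⟩
      rw [Finset.mem_Ico]
      constructor
      · omega
      · omega
    calc S.card ≤ (U.biUnion (fun b => Finset.Ico (s b - 11 * (t b - s b) / 10)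
        (t b + 11 * (t b - s b) / 10))).card := Finset.card_le_card hsub
      _ ≤ ∑ b ∈ U, (Finset.Ico (s b - 11 * (t b - s b) / 10)
        (t b + 11 * (t b - s b) / 10)).card := Finset.card_biUnion_le
      _ ≤ ∑ b ∈ U, 20 * (202 * r b) := by
          refine Finset.sum_le_sum ?_
          intro b hb
          have h1 := hst b ((hUm b).1 hb).1
          rw [Nat.card_Ico]
          omega
      _ = 20 * ∑ b ∈ U, 202 * r b := by rw [Finset.mul_sum]

end

end Pool.Agent.T1
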