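import Pool.Agent.helper63.T1.LTRc

/-!
# T1, row t1:LTR: from the continuous average to the labels
-/

set_option autoImplicit false

open scoped MatrixGroups ContDiff Topology UpperHalfPlane ComplexConjugate
open UpperHalfPlane MeasureTheory Filter Set

namespace Pool.Agent.T1

noncomputable section

lemma LTR_lwm {X : Type} [MeasurableSpace X] (k : ℝ → X → ℝ)
    (hk : Measurable (Function.uncurry k)) (n : ℝ) (M : ℕ) (p : Fin M → Bool) :
    Measurable (fun x => lw M (fun i => k (i * n) x) p) := by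
  unfold lw
  refine Finset.measurable_prod _ ?_
  intro i _
  by_cases h : p i = true
  · simp only [h, if_true]
    exact hk.of_uncurry_left
  · simp only [h]
    exact measurable_const.sub hk.of_uncurry_left

lemma LTR_lwb (M : ℕ) (κ : ℕ → ℝ) (hκ : ∀ i, 0 ≤ κ i ∧ κ i ≤ 1) (p : Fin M → Bool) :
    |lw M κ p| ≤ 1 := by
  have h1 := LTR_nn M κ hκ p
  have h2 := LTR_le1 M κ hκ {p}
  rw [Finset.sum_singleton] at h2
  rw [abs_of_nonneg h1]
  exact h2

/-- the pointwise inequality -/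
lemma LTR_point (M y0 : ℕ) (c2 A A' D1 D2 : ℝ) (hc2 : 0 < c2) (hc2' : c2 ≤ 1) (hM : 8 ≤ M)
    (hy : 1 ≤ y0) (κ : ℕ → ℝ) (hκ : ∀ i, 0 ≤ κ i ∧ κ i ≤ 1) (hD1 : 0 ≤ D1) (hD2 : 0 ≤ D2)
    (h4 : |A - (((M / 2 : ℕ) : ℝ) - ((0 : ℕ) : ℝ))⁻¹ * ∑ i ∈ Finset.Ico 0 (M / 2), κ i| ≤ D1)
    (h5 : |A' - ((M : ℝ) - ((M / 2 : ℕ) : ℝ))⁻¹ * ∑ i ∈ Finset.Ico (M / 2) M, κ i| ≤ D2)
    (s1 s2 : ℝ) (hs1 : 0 ≤ s1) (hs2 : 0 ≤ s2) (hs1' : 1 - 4 * c2 ≤ A → 1 ≤ s1)
    (hs2' : A' < 1 / 30 → 1 ≤ s2) :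
    1 - ∑ p ∈ EE M y0 c2, lw M κ p ≤ s1 + s2 + 4 / c2 * D1 + 200 * D2 +
      (4 / ((c2 / 4) ^ 2 * ((M / 2 : ℕ) : ℝ)) + 4 / ((1 / 200) ^ 2 * ((M - M / 2 : ℕ) : ℝ))) +
      2 / (c2 * M) * ∑ z ∈ PP M y0, (1 - κ z.1) * κ (z.1 + z.2) := by
  have hpp : 0 ≤ 2 / (c2 * M) * ∑ z ∈ PP M y0, (1 - κ z.1) * κ (z.1 + z.2) := by
    refine mul_nonneg (by positivity) (Finset.sum_nonneg ?_)
    intro z _
    exact mul_nonneg (by linarith [(hκ z.1).2]) (hκ _).1
  have he1 : 0 ≤ 4 / ((c2 / 4) ^ 2 * ((M / 2 : ℕ) : ℝ)) := by positivity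
  have he2 : 0 ≤ 4 / ((1 / 200 : ℝ) ^ 2 * ((M - M / 2 : ℕ) : ℝ)) := by positivity
  have hd1 : 0 ≤ 4 / c2 * D1 := by positivity
  have hd2 : 0 ≤ 200 * D2 := by positivity
  have hE : 0 ≤ ∑ p ∈ EE M y0 c2, lw M κ p := Finset.sum_nonneg (fun p _ => LTR_nn M κ hκ p)
  by_cases c1 : 1 - 4 * c2 ≤ A
  · have := hs1' c1
    linarith
  by_cases c3 : A' < 1 / 30
  · have := hs2' c3
    linarith
  by_cases c4 : c2 / 4 < D1
  · have : 1 ≤ 4 / c2 * D1 := by
      rw [div_mul_eq_mul_div, le_div_iff₀ hc2]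
      linarith
    linarith
  by_cases c5 : 1 / 200 < D2
  · linarith
  have hm : (0 : ℝ) < ((M / 2 : ℕ) : ℝ) := by
    have : 0 < M / 2 := by omega
    exact_mod_cast this
  have hm2 : (0 : ℝ) < ((M - M / 2 : ℕ) : ℝ) := by
    have : 0 < M - M / 2 := by omega
    exact_mod_cast this
  have hcast : (M : ℝ) - ((M / 2 : ℕ) : ℝ) = ((M - M / 2 : ℕ) : ℝ) := by
    rw [Nat.cast_sub (by omega)]
  rw [Nat.cast_zero, sub_zero] at h4
  rw [hcast] at h5
  have g1 : ∑ i ∈ Finset.range (M / 2), κ i ≤ (A + c2 / 4) * ((M / 2 : ℕ) : ℝ) := by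
    rw [Finset.range_eq_Ico]
    have g2 := (abs_le.1 h4).1
    have g3 : (((M / 2 : ℕ) : ℝ))⁻¹ * ∑ i ∈ Finset.Ico 0 (M / 2), κ i ≤ A + c2 / 4 := by
      linarith [not_lt.1 c4]
    rw [inv_mul_le_iff₀ hm] at g3
    linarith
  have g4 : (A' - 1 / 200) * ((M - M / 2 : ℕ) : ℝ) ≤ ∑ i ∈ Finset.Ico (M / 2) M, κ i := by
    have g2 := (abs_le.1 h5).2
    have g3 : A' - 1 / 200 ≤ (((M - M / 2 : ℕ) : ℝ))⁻¹ * ∑ i ∈ Finset.Ico (M / 2) M, κ i := by
      linarith [not_lt.1 c5]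
    rw [← div_eq_inv_mul, le_div_iff₀ hm2] at g3
    exact g3
  have h := LTR_fin M y0 c2 A A' hc2 hc2' hM hy κ hκ (not_le.1 c1) (not_lt.1 c3) g1 g4
  linarith

/-- the total change at one block -/
def Bdk {X : Type} (k : ℝ → X → ℝ) (n : ℝ) (y0 i : ℕ) (x : X) : ℝ :=
  ∑ j ∈ Finset.range (y0 + 1), bk k ((i : ℕ) * n) ((j : ℕ) * n) x +
    (∫ u in (0 : ℝ)..n, bk k ((i : ℕ) * n) u x) / n

lemma LTR_bk {X : Type} (k : ℝ → X → ℝ) (h01 : ∀ s x, 0 ≤ k s x ∧ k s x ≤ 1) (s u : ℝ) (x : X) :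
    0 ≤ bk k s u x ∧ bk k s u x ≤ 1 ∧ |k (s + u) x - k s x| ≤ bk k s u x ∧
      (1 - k s x) * k (s + u) x ≤ bk k s u x := by
  unfold bk
  have h1 := h01 s x
  have h2 := h01 (s + u) x
  refine ⟨?_, ?_, ?_, ?_⟩
  · have := mul_nonneg h1.1 (by linarith : 0 ≤ 1 - k (s + u) x)
    have := mul_nonneg h2.1 (by linarith : 0 ≤ 1 - k s x)
    linarith
  · nlinarith [mul_nonneg h1.1 h2.1, mul_nonneg (by linarith : 0 ≤ 1 - k s x)
      (by linarith : 0 ≤ 1 - k (s + u) x)]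
  · rw [abs_le]
    constructor
    · nlinarith [mul_nonneg h2.1 (by linarith : 0 ≤ 1 - k s x)]
    · nlinarith [mul_nonneg h1.1 (by linarith : 0 ≤ 1 - k (s + u) x)]
  · nlinarith [mul_nonneg h1.1 (by linarith : 0 ≤ 1 - k (s + u) x)]

lemma LTR_bkm {X : Type} [MeasurableSpace X] (k : ℝ → X → ℝ)
    (hk : Measurable (Function.uncurry k)) (s : ℝ) :
    Measurable (Function.uncurry (fun (x : X) (u : ℝ) => bk k s u x)) := by
  have h1 : Measurable (fun z : X × ℝ => k (s + z.2) z.1) :=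
    hk.comp ((measurable_const.add measurable_snd).prodMk measurable_fst)
  have h2 : Measurable (fun z : X × ℝ => k s z.1) :=
    (hk.of_uncurry_left (x := s)).comp measurable_fst
  exact (h2.mul (measurable_const.sub h1)).add (h1.mul (measurable_const.sub h2))

lemma LTR_bki {X : Type} [MeasurableSpace X] (k : ℝ → X → ℝ)
    (hk : Measurable (Function.uncurry k)) (h01 : ∀ s x, 0 ≤ k s x ∧ k s x ≤ 1) (s : ℝ) (x : X)
    (a b : ℝ) : IntervalIntegrable (fun u => bk k s u x) volume a b := by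
  have hm : Measurable (fun u => bk k s u x) :=
    (LTR_bkm k hk s).comp (measurable_const.prodMk measurable_id)
  rw [intervalIntegrable_iff]
  haveI : IsFiniteMeasure (volume.restrict (Set.uIoc a b)) :=
    ⟨by rw [Measure.restrict_apply_univ, Set.uIoc]; exact measure_Ioc_lt_top⟩
  exact LTR_int _ _ hm 1 (fun u => by
    rw [abs_of_nonneg (LTR_bk k h01 s u x).1]
    exact (LTR_bk k h01 s u x).2.1)

lemma LTR_Bd {X : Type} [MeasurableSpace X] (k : ℝ → X → ℝ)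
    (hk : Measurable (Function.uncurry k)) (h01 : ∀ s x, 0 ≤ k s x ∧ k s x ≤ 1) (n : ℝ)
    (hn : 0 < n) (y0 i : ℕ) (x : X) :
    0 ≤ Bdk k n y0 i x ∧ Bdk k n y0 i x ≤ y0 + 2 ∧ Gd k n i x ≤ n * Bdk k n y0 i x ∧
      ∑ j ∈ Finset.range (y0 + 1), bk k ((i : ℕ) * n) ((j : ℕ) * n) x ≤ Bdk k n y0 i x := by
  have h1 : 0 ≤ ∑ j ∈ Finset.range (y0 + 1), bk k ((i : ℕ) * n) ((j : ℕ) * n) x :=
    Finset.sum_nonneg (fun j _ => (LTR_bk k h01 _ _ x).1)
  have h2 : ∑ j ∈ Finset.range (y0 + 1), bk k ((i : ℕ) * n) ((j : ℕ) * n) x ≤ y0 + 1 := by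
    have := Finset.sum_le_card_nsmul (Finset.range (y0 + 1))
      (fun j => bk k ((i : ℕ) * n) ((j : ℕ) * n) x) 1 (fun j _ => (LTR_bk k h01 _ _ x).2.1)
    rw [Finset.card_range, nsmul_eq_mul, mul_one] at this
    push_cast at this
    exact this
  have h3 : 0 ≤ ∫ u in (0 : ℝ)..n, bk k ((i : ℕ) * n) u x :=
    intervalIntegral.integral_nonneg hn.le (fun u _ => (LTR_bk k h01 _ _ x).1)
  have h4 : ∫ u in (0 : ℝ)..n, bk k ((i : ℕ) * n) u x ≤ n := by
    have := intervalIntegral.integral_mono_on (μ := volume) hn.le (LTR_bki k hk h01 (i * n) x 0 n)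
      (intervalIntegrable_const (c := (1 : ℝ))) (fun u _ => (LTR_bk k h01 (i * n) u x).2.1)
    rw [intervalIntegral.integral_const, smul_eq_mul, mul_one, sub_zero] at this
    exact this
  have h5 : Gd k n i x ≤ ∫ u in (0 : ℝ)..n, bk k ((i : ℕ) * n) u x := by
    unfold Gd
    have hle : (i : ℝ) * n ≤ ((i + 1 : ℕ) : ℝ) * n := by push_cast; nlinarith
    rw [← intervalIntegral.integral_of_le hle]
    have e1 : ∫ s in ((i : ℝ) * n)..(((i + 1 : ℕ) : ℝ) * n), |k s x - k (i * n) x| =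
        ∫ u in (0 : ℝ)..n, |k (i * n + u) x - k (i * n) x| := by
      have := intervalIntegral.integral_comp_add_left (a := 0) (b := n)
        (fun s => |k s x - k (i * n) x|) ((i : ℝ) * n)
      rw [this]
      congr 1
      · ring
      · push_cast
        ring
    rw [e1]
    have hm : Measurable (fun u => |k (i * n + u) x - k (i * n) x|) := by
      have h6 : Measurable (fun u : ℝ => k (i * n + u) x) :=
        hk.comp ((measurable_const.add measurable_id).prodMk measurable_const)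
      exact (h6.sub measurable_const).norm
    have hii : IntervalIntegrable (fun u => |k (i * n + u) x - k (i * n) x|) volume 0 n := by
      rw [intervalIntegrable_iff]
      haveI : IsFiniteMeasure (volume.restrict (Set.uIoc 0 n)) :=
        ⟨by rw [Measure.restrict_apply_univ, Set.uIoc]; exact measure_Ioc_lt_top⟩
      exact LTR_int _ _ hm 1 (fun u => by
        rw [abs_abs]
        exact LTR_kabs k h01 _ _ _)
    exact intervalIntegral.integral_mono_on hn.le hii (LTR_bki k hk h01 (i * n) x 0 n)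
      (fun u _ => (LTR_bk k h01 (i * n) u x).2.2.1)
  have h6 : 0 ≤ (∫ u in (0 : ℝ)..n, bk k ((i : ℕ) * n) u x) / n := div_nonneg h3 hn.le
  have h7 : (∫ u in (0 : ℝ)..n, bk k ((i : ℕ) * n) u x) / n ≤ 1 := by
    rw [div_le_one hn]
    exact h4
  unfold Bdk
  refine ⟨by linarith, by linarith, ?_, by linarith⟩
  have h8 : n * ((∫ u in (0 : ℝ)..n, bk k ((i : ℕ) * n) u x) / n) =
      ∫ u in (0 : ℝ)..n, bk k ((i : ℕ) * n) u x := by
    field_simp
  have h9 := mul_nonneg hn.le h1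
  rw [mul_add, h8]
  linarith

lemma LTR_Bdi {X : Type} [MeasurableSpace X] (P : Measure X) [IsFiniteMeasure P] (k : ℝ → X → ℝ)
    (hk : Measurable (Function.uncurry k)) (h01 : ∀ s x, 0 ≤ k s x ∧ k s x ≤ 1) (n : ℝ)
    (hn : 0 < n) (y0 i : ℕ) : Integrable (Bdk k n y0 i) P := by
  refine LTR_int P _ ?_ (y0 + 2) ?_
  · unfold Bdk
    refine Measurable.add ?_ (Measurable.div_const ?_ _)
    · refine Finset.measurable_sum _ ?_
      intro j _
      exact (LTR_bkm k hk (i * n)).comp (measurable_id.prodMk measurable_const)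
    · have h1 : (fun x => ∫ u in (0 : ℝ)..n, bk k ((i : ℕ) * n) u x) =
          fun x => ∫ u in Set.Ioc 0 n, bk k ((i : ℕ) * n) u x := by
        funext x
        rw [intervalIntegral.integral_of_le hn.le]
      rw [h1]
      exact (StronglyMeasurable.integral_prod_right (ν := volume.restrict (Set.Ioc 0 n))
        (LTR_bkm k hk (i * n)).stronglyMeasurable).measurable
  · intro x
    have h := LTR_Bd k hk h01 n hn y0 i x
    rw [abs_of_nonneg h.1]
    exact h.2.1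

/-- the pairs -/
lemma LTR_pp {X : Type} [MeasurableSpace X] (k : ℝ → X → ℝ)
    (hk : Measurable (Function.uncurry k)) (h01 : ∀ s x, 0 ≤ k s x ∧ k s x ≤ 1) (n : ℝ)
    (hn : 0 < n) (M y0 : ℕ) (x : X) :
    ∑ z ∈ PP M y0, (1 - k (z.1 * n) x) * k (((z.1 + z.2 : ℕ) : ℝ) * n) x ≤
      ∑ i ∈ Finset.range (M / 2), Bdk k n y0 i x := by
  have hb : ∀ a b : ℕ, 0 ≤ (1 - k (a * n) x) * k (((a + b : ℕ) : ℝ) * n) x := by
    intro a b
    exact mul_nonneg (by linarith [(h01 (a * n) x).2]) (h01 _ x).1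
  have h1 : ∑ z ∈ PP M y0, (1 - k (z.1 * n) x) * k (((z.1 + z.2 : ℕ) : ℝ) * n) x ≤
      ∑ z ∈ (Finset.range (M / 2)) ×ˢ (Finset.range (y0 + 1)),
        (1 - k (z.1 * n) x) * k (((z.1 + z.2 : ℕ) : ℝ) * n) x := by
    refine Finset.sum_le_sum_of_subset_of_nonneg ?_ (fun z _ _ => hb z.1 z.2)
    intro z hz
    unfold PP at hz
    rw [Finset.mem_filter, Finset.mem_product, Finset.mem_Ico] at hz
    rw [Finset.mem_product, Finset.mem_range (n := y0 + 1)]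
    exact ⟨hz.1.1, by omega⟩
  refine h1.trans ?_
  rw [Finset.sum_product]
  refine Finset.sum_le_sum ?_
  intro i _
  refine le_trans (Finset.sum_le_sum ?_) (LTR_Bd k hk h01 n hn y0 i x).2.2.2
  intro j _
  have h2 := (LTR_bk k h01 (i * n) (j * n) x).2.2.2
  have h3 : ((i + j : ℕ) : ℝ) * n = i * n + j * n := by push_cast; ring
  dsimp only
  rw [h3]
  exact h2

/-- the deviation of the averages -/
lemma LTR_dv {X : Type} [MeasurableSpace X] (k : ℝ → X → ℝ)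
    (hk : Measurable (Function.uncurry k)) (h01 : ∀ s x, 0 ≤ k s x ∧ k s x ≤ 1) (n : ℝ)
    (hn : 0 < n) (y0 m1 m2 : ℕ) (hm : m1 < m2) (x : X) :
    |avk k (m1 * n) (m2 * n) x - ((m2 : ℝ) - m1)⁻¹ * ∑ i ∈ Finset.Ico m1 m2, k (i * n) x| ≤
      ((m2 : ℝ) - m1)⁻¹ * ∑ i ∈ Finset.Ico m1 m2, Bdk k n y0 i x := by
  have hmr : (0 : ℝ) < (m2 : ℝ) - m1 := by
    have : (m1 : ℝ) < m2 := by exact_mod_cast hm
    linarith
  refine (LTR_dev k hk h01 n hn m1 m2 hm x).trans ?_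
  have h1 : ∑ i ∈ Finset.Ico m1 m2, Gd k n i x ≤ n * ∑ i ∈ Finset.Ico m1 m2, Bdk k n y0 i x := by
    rw [Finset.mul_sum]
    exact Finset.sum_le_sum (fun i _ => (LTR_Bd k hk h01 n hn y0 i x).2.2.1)
  calc (((m2 : ℝ) - m1) * n)⁻¹ * ∑ i ∈ Finset.Ico m1 m2, Gd k n i x
      ≤ (((m2 : ℝ) - m1) * n)⁻¹ * (n * ∑ i ∈ Finset.Ico m1 m2, Bdk k n y0 i x) :=
        mul_le_mul_of_nonneg_left h1 (by positivity)
    _ = ((m2 : ℝ) - m1)⁻¹ * ∑ i ∈ Finset.Ico m1 m2, Bdk k n y0 i x := by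
        obtain ⟨T, hT⟩ : ∃ T : ℝ, T = ∑ i ∈ Finset.Ico m1 m2, Bdk k n y0 i x := ⟨_, rfl⟩
        rw [← hT]
        field_simp

theorem LTR2_proof : LTR2_stmt := by
  classical
  intro c2 c3 y0 hc2 hc2' hc3 hy
  obtain ⟨Q, hQ⟩ : ∃ Q : ℝ, Q = 5 / c2 + 200 := ⟨_, rfl⟩
  have hQ0 : 0 < Q := by
    rw [hQ]
    positivity
  obtain ⟨δ, hδ⟩ : ∃ δ : ℝ, δ = c3 / (2 * Q) := ⟨_, rfl⟩
  have hδ0 : 0 < δ := by
    rw [hδ]
    positivity
  have hδQ : δ * Q = c3 / 2 := by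
    rw [hδ]
    field_simp
  obtain ⟨M1, hM1⟩ := exists_nat_ge (4 * (256 / c2 ^ 2 + 640000) / c3)
  refine ⟨δ, max 8 M1, hδ0, (by norm_num : 1 ≤ 8).trans (le_max_left _ _), ?_⟩
  intro X _ P _ k n M' hP hM' hn hk h01 H1 H3
  obtain ⟨M, hMdef⟩ : ∃ M : ℕ, M = 2 * M' := ⟨_, rfl⟩
  have hM2 : M / 2 = M' := by omega
  have hMs : M - M' = M' := by omega
  have hM8' : 8 ≤ M' := (le_max_left _ _).trans hM'
  have hMM : M1 ≤ M' := (le_max_right _ _).trans hM'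
  have hM8 : 8 ≤ M := by omega
  have hM'r : (8 : ℝ) ≤ M' := by exact_mod_cast hM8'
  have hM'0 : (0 : ℝ) < M' := by linarith
  have hMr : (M : ℝ) = 2 * M' := by
    rw [hMdef]
    push_cast
    ring
  rw [← hMdef] at H1 ⊢
  have hkm : ∀ s : ℝ, Measurable (k s) := fun s => hk.of_uncurry_left
  obtain ⟨S1, eS1⟩ : ∃ S1 : Set X, S1 = {x | 1 - 4 * c2 ≤ (∫ s in (0 : ℝ)..(M' * n), k s x) /
    (M' * n)} := ⟨_, rfl⟩
  obtain ⟨S2, eS2⟩ : ∃ S2 : Set X, S2 = {x | (∫ s in (0 : ℝ)..(M' * n), k (M' * n + s) x) /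
    (M' * n) < 1 / 30} := ⟨_, rfl⟩
  rw [← eS1, ← eS2] at H3
  have hMn : 0 < (M' : ℝ) * n := by positivity
  have mA : Measurable (fun x => (∫ s in (0 : ℝ)..(M' * n), k s x) / (M' * n)) := by
    refine Measurable.div_const ?_ _
    have h1 : (fun x => ∫ s in (0 : ℝ)..(M' * n), k s x) =
        fun x => ∫ s in Set.Ioc 0 ((M' : ℝ) * n), k s x := by
      funext x
      rw [intervalIntegral.integral_of_le hMn.le]
    rw [h1]
    have h2 : Measurable (Function.uncurry (fun (x : X) (s : ℝ) => k s x)) :=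
      hk.comp (measurable_snd.prodMk measurable_fst)
    exact (StronglyMeasurable.integral_prod_right (ν := volume.restrict (Set.Ioc 0 ((M' : ℝ) * n)))
      h2.stronglyMeasurable).measurable
  have mA' : Measurable (fun x => (∫ s in (0 : ℝ)..(M' * n), k (M' * n + s) x) / (M' * n)) := by
    refine Measurable.div_const ?_ _
    have h1 : (fun x => ∫ s in (0 : ℝ)..(M' * n), k (M' * n + s) x) =
        fun x => ∫ s in Set.Ioc 0 ((M' : ℝ) * n), k (M' * n + s) x := by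
      funext x
      rw [intervalIntegral.integral_of_le hMn.le]
    rw [h1]
    have h2 : Measurable (Function.uncurry (fun (x : X) (s : ℝ) => k (M' * n + s) x)) :=
      hk.comp ((measurable_const.add measurable_snd).prodMk measurable_fst)
    exact (StronglyMeasurable.integral_prod_right (ν := volume.restrict (Set.Ioc 0 ((M' : ℝ) * n)))
      h2.stronglyMeasurable).measurable
  have hS1 : MeasurableSet S1 := by
    rw [eS1]
    exact measurableSet_le measurable_const mA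
  have hS2 : MeasurableSet S2 := by
    rw [eS2]
    exact measurableSet_lt mA' measurable_const
  have eA : ∀ x, avk k 0 (M' * n) x = (∫ s in (0 : ℝ)..(M' * n), k s x) / (M' * n) := by
    intro x
    unfold avk
    rw [sub_zero, div_eq_inv_mul]
  have eA' : ∀ x, avk k (M' * n) (M * n) x =
      (∫ s in (0 : ℝ)..(M' * n), k (M' * n + s) x) / (M' * n) := by
    intro x
    unfold avk
    have e1 : (M : ℝ) * n - M' * n = M' * n := by
      rw [hMr]
      ring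
    have e2 := intervalIntegral.integral_comp_add_left (a := 0) (b := (M' : ℝ) * n)
      (fun s => k s x) ((M' : ℝ) * n)
    rw [e1, e2, div_eq_inv_mul, add_zero]
    congr 2
    rw [hMr]
    ring
  obtain ⟨E0, hE0⟩ : ∃ E0 : ℝ, E0 = 4 / ((c2 / 4) ^ 2 * ((M / 2 : ℕ) : ℝ)) +
    4 / ((1 / 200) ^ 2 * ((M - M / 2 : ℕ) : ℝ)) := ⟨_, rfl⟩
  have hκ : ∀ x : X, ∀ i : ℕ, 0 ≤ (fun i : ℕ => k (i * n) x) i ∧
      (fun i : ℕ => k (i * n) x) i ≤ 1 := fun x i => h01 _ _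
  have hBn : ∀ (i : ℕ) (x : X), 0 ≤ Bdk k n y0 i x := fun i x => (LTR_Bd k hk h01 n hn y0 i x).1
  -- pointwise
  have hpt : ∀ x : X, 1 - ∑ p ∈ EE M y0 c2, lw M (fun i => k (i * n) x) p ≤
      S1.indicator (fun _ => (1 : ℝ)) x + S2.indicator (fun _ => (1 : ℝ)) x +
      4 / c2 * ((M' : ℝ)⁻¹ * ∑ i ∈ Finset.Ico 0 M', Bdk k n y0 i x) +
      200 * ((M' : ℝ)⁻¹ * ∑ i ∈ Finset.Ico M' M, Bdk k n y0 i x) + E0 +
      2 / (c2 * M) * ∑ i ∈ Finset.range M', Bdk k n y0 i x := by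
    intro x
    rw [hE0]
    have q1 := LTR_dv k hk h01 n hn y0 0 M' (by omega) x
    have q2 := LTR_dv k hk h01 n hn y0 M' M (by omega) x
    rw [Nat.cast_zero, zero_mul, eA] at q1
    rw [eA'] at q2
    have e3 : (M : ℝ) - M' = M' := by
      rw [hMr]
      ring
    have h := LTR_point M y0 c2 ((∫ s in (0 : ℝ)..(M' * n), k s x) / (M' * n))
      ((∫ s in (0 : ℝ)..(M' * n), k (M' * n + s) x) / (M' * n))
      ((M' : ℝ)⁻¹ * ∑ i ∈ Finset.Ico 0 M', Bdk k n y0 i x)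
      ((M' : ℝ)⁻¹ * ∑ i ∈ Finset.Ico M' M, Bdk k n y0 i x) hc2 hc2' hM8 hy
      (fun i => k (i * n) x) (hκ x)
      (mul_nonneg (by positivity) (Finset.sum_nonneg (fun i _ => hBn i x)))
      (mul_nonneg (by positivity) (Finset.sum_nonneg (fun i _ => hBn i x)))
      (by
        rw [hM2, Nat.cast_zero]
        rw [sub_zero] at q1 ⊢
        exact q1)
      (by
        rw [hM2]
        rw [e3] at q2 ⊢
        exact q2)
      (S1.indicator (fun _ => (1 : ℝ)) x) (S2.indicator (fun _ => (1 : ℝ)) x)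
      (Set.indicator_nonneg (fun _ _ => zero_le_one) x)
      (Set.indicator_nonneg (fun _ _ => zero_le_one) x)
      (by
        intro h
        have : x ∈ S1 := by
          rw [eS1]
          exact h
        rw [Set.indicator_of_mem this])
      (by
        intro h
        have : x ∈ S2 := by
          rw [eS2]
          exact h
        rw [Set.indicator_of_mem this])
    refine h.trans ?_
    have q3 := LTR_pp k hk h01 n hn M y0 x
    rw [hM2] at q3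
    have q4 : 2 / (c2 * M) * ∑ z ∈ PP M y0, (1 - k (z.1 * n) x) *
        k (((z.1 + z.2 : ℕ) : ℝ) * n) x ≤
        2 / (c2 * M) * ∑ i ∈ Finset.range M', Bdk k n y0 i x :=
      mul_le_mul_of_nonneg_left q3 (by positivity)
    linarith
  -- integrability
  have ilw : ∀ p : Fin M → Bool, Integrable (fun x => lw M (fun i => k (i * n) x) p) P :=
    fun p => LTR_int P _ (LTR_lwm k hk n M p) 1 (fun x => LTR_lwb M _ (hκ x) p)
  have iE : Integrable (fun x => ∑ p ∈ EE M y0 c2, lw M (fun i => k (i * n) x) p) P :=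
    integrable_finset_sum _ (fun p _ => ilw p)
  have i1 : Integrable (fun _ : X => (1 : ℝ)) P := integrable_const _
  have iS1 : Integrable (S1.indicator (fun _ => (1 : ℝ))) P := i1.indicator hS1
  have iS2 : Integrable (S2.indicator (fun _ => (1 : ℝ))) P := i1.indicator hS2
  have iBs : ∀ S : Finset ℕ, Integrable (fun x => ∑ i ∈ S, Bdk k n y0 i x) P :=
    fun S => integrable_finset_sum _ (fun i _ => LTR_Bdi P k hk h01 n hn y0 i)
  have iE0 : Integrable (fun _ : X => E0) P := integrable_const _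
  have j1 := iS1.add iS2
  have iD1 := ((iBs (Finset.Ico 0 M')).const_mul (M' : ℝ)⁻¹).const_mul (4 / c2)
  have iD2 := ((iBs (Finset.Ico M' M)).const_mul (M' : ℝ)⁻¹).const_mul 200
  have iD3 := (iBs (Finset.range M')).const_mul (2 / (c2 * M))
  have j2 := j1.add iD1
  have j3 := j2.add iD2
  have j4 := j3.add iE0
  have hint := integral_mono (μ := P) (i1.sub iE) (j4.add iD3) hpt
  have hL : ∫ x, ((fun _ : X => (1 : ℝ)) - fun x => ∑ p ∈ EE M y0 c2,
      lw M (fun i => k (i * n) x) p) x ∂P =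
      P.real univ - ∑ p ∈ EE M y0 c2, ∫ x, lw M (fun i => k (i * n) x) p ∂P := by
    have e1 : ∫ x, ((fun _ : X => (1 : ℝ)) - fun x => ∑ p ∈ EE M y0 c2,
      lw M (fun i => k (i * n) x) p) x ∂P = ∫ x, (1 : ℝ) ∂P - ∫ x, ∑ p ∈ EE M y0 c2,
      lw M (fun i => k (i * n) x) p ∂P := integral_sub i1 iE
    rw [e1, integral_const, smul_eq_mul, mul_one, integral_finset_sum _ (fun p _ => ilw p)]
  rw [hL] at hint
  have hBsum : ∀ S : Finset ℕ, (∀ i ∈ S, i < M) →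
      ∫ x, ∑ i ∈ S, Bdk k n y0 i x ∂P ≤ S.card * δ := by
    intro S hS
    rw [integral_finset_sum _ (fun i _ => LTR_Bdi P k hk h01 n hn y0 i)]
    have := Finset.sum_le_card_nsmul S (fun i => ∫ x, Bdk k n y0 i x ∂P) δ
      (fun i hi => H1 i (hS i hi))
    rw [nsmul_eq_mul] at this
    exact this
  have hR : ∫ x, (S1.indicator (fun _ => (1 : ℝ)) x + S2.indicator (fun _ => (1 : ℝ)) x +
      4 / c2 * ((M' : ℝ)⁻¹ * ∑ i ∈ Finset.Ico 0 M', Bdk k n y0 i x) +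
      200 * ((M' : ℝ)⁻¹ * ∑ i ∈ Finset.Ico M' M, Bdk k n y0 i x) + E0 +
      2 / (c2 * M) * ∑ i ∈ Finset.range M', Bdk k n y0 i x) ∂P =
      P.real S1 + P.real S2 +
      4 / c2 * ((M' : ℝ)⁻¹ * ∫ x, ∑ i ∈ Finset.Ico 0 M', Bdk k n y0 i x ∂P) +
      200 * ((M' : ℝ)⁻¹ * ∫ x, ∑ i ∈ Finset.Ico M' M, Bdk k n y0 i x ∂P) +
      P.real univ * E0 + 2 / (c2 * M) * ∫ x, ∑ i ∈ Finset.range M', Bdk k n y0 i x ∂P := by
    have k1 : ∫ x, (S1.indicator (fun _ => (1 : ℝ)) x + S2.indicator (fun _ => (1 : ℝ)) x +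
      4 / c2 * ((M' : ℝ)⁻¹ * ∑ i ∈ Finset.Ico 0 M', Bdk k n y0 i x) +
      200 * ((M' : ℝ)⁻¹ * ∑ i ∈ Finset.Ico M' M, Bdk k n y0 i x) + E0 +
      2 / (c2 * M) * ∑ i ∈ Finset.range M', Bdk k n y0 i x) ∂P =
      ∫ x, (S1.indicator (fun _ => (1 : ℝ)) x + S2.indicator (fun _ => (1 : ℝ)) x +
      4 / c2 * ((M' : ℝ)⁻¹ * ∑ i ∈ Finset.Ico 0 M', Bdk k n y0 i x) +
      200 * ((M' : ℝ)⁻¹ * ∑ i ∈ Finset.Ico M' M, Bdk k n y0 i x) + E0) ∂P +
      ∫ x, 2 / (c2 * M) * ∑ i ∈ Finset.range M', Bdk k n y0 i x ∂P := integral_add j4 iD3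
    have k2 : ∫ x, (S1.indicator (fun _ => (1 : ℝ)) x + S2.indicator (fun _ => (1 : ℝ)) x +
      4 / c2 * ((M' : ℝ)⁻¹ * ∑ i ∈ Finset.Ico 0 M', Bdk k n y0 i x) +
      200 * ((M' : ℝ)⁻¹ * ∑ i ∈ Finset.Ico M' M, Bdk k n y0 i x) + E0) ∂P =
      ∫ x, (S1.indicator (fun _ => (1 : ℝ)) x + S2.indicator (fun _ => (1 : ℝ)) x +
      4 / c2 * ((M' : ℝ)⁻¹ * ∑ i ∈ Finset.Ico 0 M', Bdk k n y0 i x) +
      200 * ((M' : ℝ)⁻¹ * ∑ i ∈ Finset.Ico M' M, Bdk k n y0 i x)) ∂P + ∫ x, E0 ∂P :=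
      integral_add j3 iE0
    have k3 : ∫ x, (S1.indicator (fun _ => (1 : ℝ)) x + S2.indicator (fun _ => (1 : ℝ)) x +
      4 / c2 * ((M' : ℝ)⁻¹ * ∑ i ∈ Finset.Ico 0 M', Bdk k n y0 i x) +
      200 * ((M' : ℝ)⁻¹ * ∑ i ∈ Finset.Ico M' M, Bdk k n y0 i x)) ∂P =
      ∫ x, (S1.indicator (fun _ => (1 : ℝ)) x + S2.indicator (fun _ => (1 : ℝ)) x +
      4 / c2 * ((M' : ℝ)⁻¹ * ∑ i ∈ Finset.Ico 0 M', Bdk k n y0 i x)) ∂P +
      ∫ x, 200 * ((M' : ℝ)⁻¹ * ∑ i ∈ Finset.Ico M' M, Bdk k n y0 i x) ∂P := integral_add j2 iD2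
    have k4 : ∫ x, (S1.indicator (fun _ => (1 : ℝ)) x + S2.indicator (fun _ => (1 : ℝ)) x +
      4 / c2 * ((M' : ℝ)⁻¹ * ∑ i ∈ Finset.Ico 0 M', Bdk k n y0 i x)) ∂P =
      ∫ x, (S1.indicator (fun _ => (1 : ℝ)) x + S2.indicator (fun _ => (1 : ℝ)) x) ∂P +
      ∫ x, 4 / c2 * ((M' : ℝ)⁻¹ * ∑ i ∈ Finset.Ico 0 M', Bdk k n y0 i x) ∂P :=
      integral_add j1 iD1
    have k5 : ∫ x, (S1.indicator (fun _ => (1 : ℝ)) x + S2.indicator (fun _ => (1 : ℝ)) x) ∂P =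
      ∫ x, S1.indicator (fun _ => (1 : ℝ)) x ∂P + ∫ x, S2.indicator (fun _ => (1 : ℝ)) x ∂P :=
      integral_add iS1 iS2
    have k6 : ∫ x, S1.indicator (fun _ => (1 : ℝ)) x ∂P = P.real S1 := by
      rw [integral_indicator hS1, setIntegral_const, smul_eq_mul, mul_one]
    have k7 : ∫ x, S2.indicator (fun _ => (1 : ℝ)) x ∂P = P.real S2 := by
      rw [integral_indicator hS2, setIntegral_const, smul_eq_mul, mul_one]
    rw [k1, k2, k3, k4, k5, k6, k7, integral_const_mul, integral_const_mul, integral_const_mul,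
      integral_const_mul, integral_const_mul, integral_const, smul_eq_mul]
  have hint2 := hint.trans (le_of_eq hR)
  have b1 := hBsum (Finset.Ico 0 M') (by
    intro i hi
    rw [Finset.mem_Ico] at hi
    omega)
  have b2 := hBsum (Finset.Ico M' M) (by
    intro i hi
    rw [Finset.mem_Ico] at hi
    omega)
  have b3 := hBsum (Finset.range M') (by
    intro i hi
    rw [Finset.mem_range] at hi
    omega)
  rw [Nat.card_Ico, Nat.sub_zero] at b1
  rw [Nat.card_Ico, hMs] at b2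
  rw [Finset.card_range] at b3
  have hid : (M' : ℝ)⁻¹ * (M' * δ) = δ := by
    field_simp
  have d1 : 4 / c2 * ((M' : ℝ)⁻¹ * ∫ x, ∑ i ∈ Finset.Ico 0 M', Bdk k n y0 i x ∂P) ≤
      4 / c2 * δ := by
    refine mul_le_mul_of_nonneg_left ?_ (by positivity)
    exact (mul_le_mul_of_nonneg_left b1 (by positivity)).trans (le_of_eq hid)
  have d2 : 200 * ((M' : ℝ)⁻¹ * ∫ x, ∑ i ∈ Finset.Ico M' M, Bdk k n y0 i x ∂P) ≤
      200 * δ := by
    refine mul_le_mul_of_nonneg_left ?_ (by positivity)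
    exact (mul_le_mul_of_nonneg_left b2 (by positivity)).trans (le_of_eq hid)
  have d3 : 2 / (c2 * M) * ∫ x, ∑ i ∈ Finset.range M', Bdk k n y0 i x ∂P ≤ 1 / c2 * δ := by
    refine (mul_le_mul_of_nonneg_left b3 (by positivity)).trans (le_of_eq ?_)
    rw [hMr]
    field_simp
  have hE0b : P.real univ * E0 ≤ c3 / 2 := by
    rw [hM2, hMs] at hE0
    have h1 : 4 / ((c2 / 4) ^ 2 * (M' : ℝ)) ≤ 256 / c2 ^ 2 / M' := by
      rw [div_div, div_le_div_iff₀ (by positivity) (by positivity)]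
      nlinarith [mul_nonneg (sq_nonneg c2) hM'0.le]
    have h2 : 4 / ((1 / 200 : ℝ) ^ 2 * (M' : ℝ)) ≤ 640000 / M' := by
      rw [div_le_div_iff₀ (by positivity) (by positivity)]
      nlinarith
    have h3 : E0 ≤ (256 / c2 ^ 2 + 640000) / M' := by
      rw [hE0, add_div]
      linarith
    have h4 : 4 * (256 / c2 ^ 2 + 640000) / c3 ≤ M' := hM1.trans (by exact_mod_cast hMM)
    have h5 : (256 / c2 ^ 2 + 640000) / M' ≤ c3 / 4 := by
      rw [div_le_iff₀ hc3] at h4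
      rw [div_le_iff₀ hM'0]
      linarith
    have h6 : 0 ≤ E0 := by
      rw [hE0]
      positivity
    have h7 : P.real univ * E0 ≤ 2 * E0 := mul_le_mul_of_nonneg_right hP h6
    linarith
  have hfin : 4 / c2 * δ + 200 * δ + 1 / c2 * δ = δ * Q := by
    rw [hQ]
    ring
  have hgoal : c3 ≤ ∑ p ∈ EE M y0 c2, ∫ x, lw M (fun i => k (i * n) x) p ∂P := by
    linarith
  exact hgoal

end

end Pool.Agent.T1
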