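import Pool.Agent.helper52.T1.SpecF

/-!
# MP_07c750, PROJECT T1, row `t1:LTR` (helper63): from the continuous average to the labels (pure probability)

`k s x` (in the application `κ(g aM t aM s)`, `P` = the law `r |pf|² dg` on `Γ \ G`), `n = log N0` the block length, label `i` is `K` with probability `k (i n) x`, independently for given `x`.
Hypotheses: `K` is almost invariant (`Bd`); the average `A` of the first half is not almost `1` and the average `A'` of the second half is not almost `0`, up to probability `P(X) - 2 c3`.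
-/

set_option autoImplicit false

open scoped MatrixGroups ContDiff Topology UpperHalfPlane ComplexConjugate
open UpperHalfPlane MeasureTheory Filter Set

namespace Pool.Agent.T1

noncomputable section

/-- the probability of the labels `p` if label `i` is `K` with probability `κ i`, independently -/
def lw (M : ℕ) (κ : ℕ → ℝ) (p : Fin M → Bool) : ℝ :=
  ∏ i : Fin M, if p i = true then κ i else 1 - κ i

open Classical in
/-- the labels with at least `c2 M` deep points in the first half and at least `M/100` labels `K` in the second half -/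
def EE (M y0 : ℕ) (c2 : ℝ) : Finset (Fin M → Bool) :=
  Finset.univ.filter fun p =>
    c2 * M ≤ ((Dp y0 M (ex p)).card : ℝ) ∧ M ≤ 100 * Kc (ex p) (M / 2) M

/-- the average of `k` over the times `[a, b]` -/
def avk {X : Type} (k : ℝ → X → ℝ) (a b : ℝ) (x : X) : ℝ := (b - a)⁻¹ * ∫ s in a..b, k s x

/-- the change of the membership between the times `s` and `s + u` -/
def bk {X : Type} (k : ℝ → X → ℝ) (s u : ℝ) (x : X) : ℝ := k s x * (1 - k (s + u) x) + k (s + u) x * (1 - k s x)

open Classical in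
/-- **Row LTR2** (from averages to labels; PURE). -/
def LTR2_stmt : Prop := ∀ (c2 c3 : ℝ) (y0 : ℕ), 0 < c2 → c2 ≤ 1 → 0 < c3 → 1 ≤ y0 → ∃ (δ : ℝ) (M0 : ℕ), 0 < δ ∧ 1 ≤ M0 ∧
  ∀ (X : Type) [MeasurableSpace X] (P : Measure X) [IsFiniteMeasure P] (k : ℝ → X → ℝ) (n : ℝ) (M' : ℕ),
    P.real univ ≤ 2 → M0 ≤ M' → 0 < n → Measurable (Function.uncurry k) → (∀ s x, 0 ≤ k s x ∧ k s x ≤ 1) →
    (∀ i < 2 * M', ∫ x, (∑ j ∈ Finset.range (y0 + 1), bk k ((i : ℕ) * n) ((j : ℕ) * n) x + (∫ u in (0 : ℝ)..n, bk k ((i : ℕ) * n) u x) / n) ∂P ≤ δ) →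
    P.real {x | 1 - 4 * c2 ≤ (∫ s in (0 : ℝ)..(M' * n), k s x) / (M' * n)} +
      P.real {x | (∫ s in (0 : ℝ)..(M' * n), k (M' * n + s) x) / (M' * n) < 1 / 30} ≤ P.real univ - 2 * c3 →
    c3 ≤ ∑ p ∈ (Finset.univ.filter fun p : Fin (2 * M') → Bool => c2 * (2 * M' : ℕ) ≤ (Dp y0 (2 * M') (ex p)).card ∧ 2 * M' ≤ 100 * Kc (ex p) (2 * M' / 2) (2 * M')),
      ∫ x, (∏ i : Fin (2 * M'), if p i = true then k ((i : ℕ) * n) x else 1 - k ((i : ℕ) * n) x) ∂P

end

end Pool.Agent.T1
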