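import Pool.Agent.helper63.T1.SpecL

/-!
# T1, row t1:LTR, part 1: independent labels
-/

set_option autoImplicit false

open scoped MatrixGroups ContDiff Topology UpperHalfPlane ComplexConjugate
open UpperHalfPlane MeasureTheory Filter Set

namespace Pool.Agent.T1

noncomputable section

lemma LTR_ex (M : ℕ) (p : Fin M → Bool) (i : Fin M) : ex p i = p i := by
  unfold ex
  rw [dif_pos i.2]

/-- the product formula -/
lemma LTR_prod (M : ℕ) (κ : ℕ → ℝ) (F : ℕ → Bool → ℝ) :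
    ∑ p : Fin M → Bool, lw M κ p * ∏ i ∈ Finset.range M, F i (ex p i) =
      ∏ i ∈ Finset.range M, (κ i * F i true + (1 - κ i) * F i false) := by
  classical
  have h1 : ∀ p : Fin M → Bool, lw M κ p * ∏ i ∈ Finset.range M, F i (ex p i) =
      ∏ i : Fin M, ((if p i = true then κ i else 1 - κ i) * F i (p i)) := by
    intro p
    rw [Finset.prod_mul_distrib]
    unfold lw
    rw [← Fin.prod_univ_eq_prod_range (fun i => F i (ex p i)) M]
    congr 1
    refine Finset.prod_congr rfl ?_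
    intro i _
    rw [LTR_ex]
  rw [Finset.sum_congr rfl (fun p _ => h1 p)]
  rw [← Fin.prod_univ_eq_prod_range (fun i => κ i * F i true + (1 - κ i) * F i false) M]
  have h2 : ∀ i : Fin M, κ i * F i true + (1 - κ i) * F i false =
      ∑ b : Bool, (if b = true then κ i else 1 - κ i) * F i b := by
    intro i
    rw [Fintype.sum_bool]
    simp
  rw [Finset.prod_congr rfl (fun i _ => h2 i)]
  rw [Finset.prod_univ_sum, Fintype.piFinset_univ]

lemma LTR_one (M : ℕ) (κ : ℕ → ℝ) : ∑ p : Fin M → Bool, lw M κ p = 1 := by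
  have h := LTR_prod M κ (fun _ _ => 1)
  simp only [Finset.prod_const_one, mul_one] at h
  rw [h]
  refine Finset.prod_eq_one ?_
  intro i _
  ring

lemma LTR_nn (M : ℕ) (κ : ℕ → ℝ) (hκ : ∀ i, 0 ≤ κ i ∧ κ i ≤ 1) (p : Fin M → Bool) :
    0 ≤ lw M κ p := by
  unfold lw
  refine Finset.prod_nonneg ?_
  intro i _
  split_ifs
  · exact (hκ i).1
  · linarith [(hκ i).2]

lemma LTR_le1 (M : ℕ) (κ : ℕ → ℝ) (hκ : ∀ i, 0 ≤ κ i ∧ κ i ≤ 1) (S : Finset (Fin M → Bool)) :
    ∑ p ∈ S, lw M κ p ≤ 1 := by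
  rw [← LTR_one M κ]
  exact Finset.sum_le_sum_of_subset_of_nonneg (Finset.subset_univ S)
    (fun p _ _ => LTR_nn M κ hκ p)

/-- the indicator of `K` -/
def iK (b : Bool) : ℝ := if b = true then 1 else 0

lemma LTR_pair (M : ℕ) (κ : ℕ → ℝ) (x y : ℕ) (hx : x < M) (hy : y < M) (hxy : x ≠ y) :
    ∑ p : Fin M → Bool, lw M κ p * ((1 - iK (ex p x)) * iK (ex p y)) =
      (1 - κ x) * κ y := by
  classical
  have h := LTR_prod M κ (fun i b => (if i = x then (1 - iK b) else 1) *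
    (if i = y then iK b else 1))
  have h1 : ∀ p : Fin M → Bool, ∏ i ∈ Finset.range M, ((if i = x then (1 - iK (ex p i)) else 1) *
      (if i = y then iK (ex p i) else 1)) = (1 - iK (ex p x)) * iK (ex p y) := by
    intro p
    rw [Finset.prod_mul_distrib, Finset.prod_ite_eq', Finset.prod_ite_eq',
      if_pos (Finset.mem_range.2 hx), if_pos (Finset.mem_range.2 hy)]
  rw [Finset.sum_congr rfl (fun p _ => by rw [h1 p])] at h
  rw [h]
  have h2 : ∀ i ∈ Finset.range M, κ i * ((if i = x then (1 - iK true) else 1) *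
      (if i = y then iK true else 1)) + (1 - κ i) * ((if i = x then (1 - iK false) else 1) *
      (if i = y then iK false else 1)) = (if i = x then (1 - κ i) else 1) *
      (if i = y then κ i else 1) := by
    intro i _
    have e1 : iK true = 1 := rfl
    have e2 : iK false = 0 := rfl
    rw [e1, e2]
    by_cases hi : i = x
    · have hiy : i ≠ y := by
        rintro rfl
        exact hxy hi.symm
      rw [if_pos hi, if_neg hiy, if_pos hi, if_neg hiy, if_pos hi, if_neg hiy]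
      ring
    · rw [if_neg hi, if_neg hi, if_neg hi]
      by_cases hiy : i = y
      · rw [if_pos hiy, if_pos hiy, if_pos hiy]
        ring
      · rw [if_neg hiy, if_neg hiy, if_neg hiy]
        ring
  rw [Finset.prod_congr rfl h2, Finset.prod_mul_distrib, Finset.prod_ite_eq',
    Finset.prod_ite_eq', if_pos (Finset.mem_range.2 hx), if_pos (Finset.mem_range.2 hy)]

lemma LTR_single (κ l : ℝ) (h0 : 0 ≤ κ) (h1 : κ ≤ 1) (hl : |l| ≤ 1) :
    κ * Real.exp (l * (1 - κ)) + (1 - κ) * Real.exp (l * (0 - κ)) ≤ Real.exp (l ^ 2) := by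
  have hl1 : -1 ≤ l := (abs_le.1 hl).1
  have hl2 : l ≤ 1 := (abs_le.1 hl).2
  have b1 : |l * (1 - κ)| ≤ 1 := by
    rw [abs_mul]
    have : |1 - κ| ≤ 1 := by
      rw [abs_le]
      constructor <;> linarith
    calc |l| * |1 - κ| ≤ 1 * 1 := mul_le_mul hl this (abs_nonneg _) zero_le_one
      _ = 1 := by ring
  have b2 : |l * (0 - κ)| ≤ 1 := by
    rw [abs_mul]
    have : |0 - κ| ≤ 1 := by
      rw [abs_le]
      constructor <;> linarith
    calc |l| * |0 - κ| ≤ 1 * 1 := mul_le_mul hl this (abs_nonneg _) zero_le_one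
      _ = 1 := by ring
  have c1 := (abs_le.1 (Real.abs_exp_sub_one_sub_id_le b1)).2
  have c2 := (abs_le.1 (Real.abs_exp_sub_one_sub_id_le b2)).2
  have d1 : Real.exp (l * (1 - κ)) ≤ 1 + l * (1 - κ) + (l * (1 - κ)) ^ 2 := by linarith
  have d2 : Real.exp (l * (0 - κ)) ≤ 1 + l * (0 - κ) + (l * (0 - κ)) ^ 2 := by linarith
  have e1 := mul_le_mul_of_nonneg_left d1 h0
  have e2 := mul_le_mul_of_nonneg_left d2 (by linarith : 0 ≤ 1 - κ)
  have e3 := Real.add_one_le_exp (l ^ 2)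
  have e4 : κ * (1 - κ) ≤ 1 := by nlinarith
  have e5 : l ^ 2 * (κ * (1 - κ)) ≤ l ^ 2 * 1 := mul_le_mul_of_nonneg_left e4 (sq_nonneg l)
  nlinarith

lemma LTR_expo (M : ℕ) (κ : ℕ → ℝ) (hκ : ∀ i, 0 ≤ κ i ∧ κ i ≤ 1) (I : Finset ℕ)
    (hI : I ⊆ Finset.range M) (l : ℝ) (hl : |l| ≤ 1) :
    ∑ p : Fin M → Bool, lw M κ p * Real.exp (l * ∑ i ∈ I, (iK (ex p i) - κ i)) ≤
      Real.exp (l ^ 2 * I.card) := by
  classical
  have h := LTR_prod M κ (fun i b => if i ∈ I then Real.exp (l * (iK b - κ i)) else 1)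
  have h1 : ∀ p : Fin M → Bool, ∏ i ∈ Finset.range M,
      (if i ∈ I then Real.exp (l * (iK (ex p i) - κ i)) else 1) =
      Real.exp (l * ∑ i ∈ I, (iK (ex p i) - κ i)) := by
    intro p
    rw [Finset.prod_ite_mem, Finset.inter_eq_right.2 hI, ← Real.exp_sum, Finset.mul_sum]
  rw [Finset.sum_congr rfl (fun p _ => by rw [h1 p])] at h
  rw [h]
  have h2 : ∏ i ∈ Finset.range M, (if i ∈ I then Real.exp (l ^ 2) else 1) =
      Real.exp (l ^ 2 * I.card) := by
    rw [Finset.prod_ite_mem, Finset.inter_eq_right.2 hI, Finset.prod_const, ← Real.exp_nat_mul]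
    ring_nf
  rw [← h2]
  refine Finset.prod_le_prod ?_ ?_
  · intro i _
    have g1 := (hκ i).1
    have g2 := (hκ i).2
    by_cases hi : i ∈ I
    · rw [if_pos hi, if_pos hi]
      have := Real.exp_pos (l * (iK true - κ i))
      have := Real.exp_pos (l * (iK false - κ i))
      have g3 : 0 ≤ 1 - κ i := by linarith
      positivity
    · rw [if_neg hi, if_neg hi]
      linarith
  · intro i _
    by_cases hi : i ∈ I
    · rw [if_pos hi, if_pos hi, if_pos hi]
      exact LTR_single (κ i) l (hκ i).1 (hκ i).2 hl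
    · rw [if_neg hi, if_neg hi, if_neg hi]
      linarith

lemma LTR_expinv (y : ℝ) (hy : 0 < y) : Real.exp (-y) ≤ 1 / y := by
  rw [Real.exp_neg, one_div]
  exact inv_anti₀ hy (by linarith [Real.add_one_le_exp y])

/-- Chernoff bound, both signs: `σ = 1` or `σ = -1` -/
lemma LTR_cher (M : ℕ) (κ : ℕ → ℝ) (hκ : ∀ i, 0 ≤ κ i ∧ κ i ≤ 1) (I : Finset ℕ)
    (hI : I ⊆ Finset.range M) (hI0 : 0 < I.card) (η σ : ℝ) (hη : 0 < η) (hη1 : η ≤ 1)
    (hσ : |σ| = 1) (B : Finset (Fin M → Bool))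
    (hB : ∀ p ∈ B, η * I.card ≤ σ * ∑ i ∈ I, (iK (ex p i) - κ i)) :
    ∑ p ∈ B, lw M κ p ≤ 4 / (η ^ 2 * I.card) := by
  have hc : (0 : ℝ) < I.card := by exact_mod_cast hI0
  have hl : |η / 2 * σ| ≤ 1 := by
    rw [abs_mul, hσ, mul_one, abs_of_pos (by linarith)]
    linarith
  have hsq : (η / 2 * σ) ^ 2 = η ^ 2 / 4 := by
    have : σ ^ 2 = 1 := by rw [← sq_abs, hσ]; norm_num
    rw [mul_pow, this]
    ring
  have h1 := LTR_expo M κ hκ I hI (η / 2 * σ) hl
  rw [hsq] at h1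
  have h2 : ∑ p ∈ B, lw M κ p * Real.exp (η / 2 * (η * I.card)) ≤
      ∑ p : Fin M → Bool, lw M κ p * Real.exp (η / 2 * σ * ∑ i ∈ I, (iK (ex p i) - κ i)) := by
    refine le_trans (Finset.sum_le_sum ?_) (Finset.sum_le_sum_of_subset_of_nonneg
      (Finset.subset_univ B) (fun p _ _ => mul_nonneg (LTR_nn M κ hκ p) (Real.exp_pos _).le))
    intro p hp
    refine mul_le_mul_of_nonneg_left ?_ (LTR_nn M κ hκ p)
    refine Real.exp_le_exp.2 ?_
    rw [mul_assoc]
    exact mul_le_mul_of_nonneg_left (hB p hp) (by linarith)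
  rw [← Finset.sum_mul] at h2
  have h3 : (∑ p ∈ B, lw M κ p) ≤ Real.exp (-(η ^ 2 * I.card / 4)) := by
    have h4 := h2.trans h1
    have h5 : Real.exp (η ^ 2 / 4 * I.card) =
        Real.exp (-(η ^ 2 * I.card / 4)) * Real.exp (η / 2 * (η * I.card)) := by
      rw [← Real.exp_add]
      congr 1
      ring
    rw [h5] at h4
    exact le_of_mul_le_mul_right h4 (Real.exp_pos _)
  refine h3.trans ?_
  have hy : 0 < η ^ 2 * I.card / 4 := by positivity
  refine (LTR_expinv _ hy).trans (le_of_eq ?_)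
  field_simp

end

end Pool.Agent.T1
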