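import Pool.Agent.helper63.T1.LTRa

/-!
# T1, row t1:LTR, part 2: the labels for a fixed point
-/

set_option autoImplicit false

open scoped MatrixGroups ContDiff Topology UpperHalfPlane ComplexConjugate
open UpperHalfPlane MeasureTheory Filter Set

namespace Pool.Agent.T1

noncomputable section

/-- the pairs of positions -/
def PP (M y0 : ℕ) : Finset (ℕ × ℕ) :=
  ((Finset.range (M / 2)) ×ˢ (Finset.Ico 1 y0)).filter (fun z => z.1 + z.2 < M)

lemma LTR_iK (b : Bool) : iK b = 0 ∨ iK b = 1 := by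
  unfold iK
  by_cases h : b = true
  · right; rw [if_pos h]
  · left; rw [if_neg h]

lemma LTR_iK0 (b : Bool) : 0 ≤ iK b := by
  rcases LTR_iK b with h | h <;> rw [h] <;> norm_num

lemma LTR_iK1 (b : Bool) : 0 ≤ 1 - iK b := by
  rcases LTR_iK b with h | h <;> rw [h] <;> norm_num

lemma LTR_Kc (M : ℕ) (p : Fin M → Bool) (a b : ℕ) :
    (Kc (ex p) a b : ℝ) = ∑ i ∈ Finset.Ico a b, iK (ex p i) := by
  classical
  unfold Kc iK
  rw [Finset.card_filter, Nat.cast_sum]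
  refine Finset.sum_congr rfl ?_
  intro i _
  split_ifs <;> simp

lemma LTR_deep (M y0 : ℕ) (p : Fin M → Bool) (hy : 1 ≤ y0) :
    ∑ x ∈ Finset.range (M / 2), (1 - iK (ex p x)) ≤
      (((Finset.range M).filter fun x => 2 * x < M ∧ ∀ i < y0, ex p (x + i) = false).card : ℝ) +
      ∑ z ∈ PP M y0, (1 - iK (ex p z.1)) * iK (ex p (z.1 + z.2)) := by
  classical
  have h1 : ∑ z ∈ PP M y0, (1 - iK (ex p z.1)) * iK (ex p (z.1 + z.2)) =
      ∑ x ∈ Finset.range (M / 2), ∑ j ∈ Finset.Ico 1 y0,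
        (if x + j < M then (1 - iK (ex p x)) * iK (ex p (x + j)) else 0) := by
    unfold PP
    rw [Finset.sum_filter, Finset.sum_product]
  have h2 : (((Finset.range (M / 2)).filter fun x => ∀ i < y0, ex p (x + i) = false).card : ℝ) ≤
      (((Finset.range M).filter fun x => 2 * x < M ∧ ∀ i < y0, ex p (x + i) = false).card : ℝ) := by
    norm_cast
    refine Finset.card_le_card ?_
    intro x hx
    rw [Finset.mem_filter, Finset.mem_range] at hx ⊢
    refine ⟨by omega, by omega, hx.2⟩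
  have h3 : (((Finset.range (M / 2)).filter fun x => ∀ i < y0, ex p (x + i) = false).card : ℝ) =
      ∑ x ∈ Finset.range (M / 2), (if ∀ i < y0, ex p (x + i) = false then (1 : ℝ) else 0) := by
    rw [Finset.card_filter, Nat.cast_sum]
    refine Finset.sum_congr rfl ?_
    intro i _
    split_ifs <;> simp
  rw [h1]
  refine le_trans ?_ (add_le_add h2 le_rfl)
  rw [h3, ← Finset.sum_add_distrib]
  refine Finset.sum_le_sum ?_
  intro x hx
  have hnn : ∀ j ∈ Finset.Ico 1 y0, 0 ≤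
      (if x + j < M then (1 - iK (ex p x)) * iK (ex p (x + j)) else 0) := by
    intro j _
    split_ifs
    · exact mul_nonneg (LTR_iK1 _) (LTR_iK0 _)
    · exact le_refl _
  by_cases hd : ∀ i < y0, ex p (x + i) = false
  · rw [if_pos hd]
    have := Finset.sum_nonneg hnn
    have := LTR_iK0 (ex p x)
    linarith
  · rw [if_neg hd]
    have hd2 : ∃ i, i < y0 ∧ ex p (x + i) = true := by
      by_contra hcon
      apply hd
      intro i hi
      by_contra h4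
      exact hcon ⟨i, hi, by simpa using h4⟩
    obtain ⟨i, hi, hit⟩ := hd2
    by_cases hx0 : ex p x = true
    · have h6 : iK (ex p x) = 1 := by
        unfold iK
        rw [if_pos hx0]
      have h7 := Finset.sum_nonneg hnn
      have h8 : 1 - iK (ex p x) = 0 := by rw [h6, sub_self]
      rw [h8] at h7 ⊢
      linarith
    · have hi1 : 1 ≤ i := by
        rcases Nat.eq_zero_or_pos i with h | h
        · exfalso
          rw [h, Nat.add_zero] at hit
          exact hx0 hit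
        · exact h
      have hiM : x + i < M := by
        by_contra hcon
        unfold ex at hit
        rw [dif_neg hcon] at hit
        exact Bool.noConfusion hit
      have h4 := Finset.single_le_sum hnn (Finset.mem_Ico.2 ⟨hi1, hi⟩)
      rw [if_pos hiM] at h4
      have h5 : iK (ex p (x + i)) = 1 := by
        unfold iK
        rw [if_pos hit]
      rw [h5, mul_one] at h4
      linarith

lemma LTR_mem (M y0 : ℕ) (c2 A A' : ℝ) (hc2 : 0 < c2) (hM : 8 ≤ M) (hy : 1 ≤ y0) (κ : ℕ → ℝ)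
    (hA : A < 1 - 4 * c2) (hA' : 1 / 30 ≤ A')
    (h4 : ∑ i ∈ Finset.range (M / 2), κ i ≤ (A + c2 / 4) * ((M / 2 : ℕ) : ℝ))
    (h5 : (A' - 1 / 200) * ((M - M / 2 : ℕ) : ℝ) ≤ ∑ i ∈ Finset.Ico (M / 2) M, κ i)
    (p : Fin M → Bool)
    (h1 : ∑ i ∈ Finset.range (M / 2), (iK (ex p i) - κ i) < c2 / 4 * ((M / 2 : ℕ) : ℝ))
    (h2 : -(1 / 200 * ((M - M / 2 : ℕ) : ℝ)) < ∑ i ∈ Finset.Ico (M / 2) M, (iK (ex p i) - κ i))
    (h3 : ∑ z ∈ PP M y0, (1 - iK (ex p z.1)) * iK (ex p (z.1 + z.2)) < c2 * M / 2) :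
    p ∈ EE M y0 c2 := by
  classical
  have hm1 : (M : ℝ) ≤ 2 * ((M / 2 : ℕ) : ℝ) + 1 := by
    have : M ≤ 2 * (M / 2) + 1 := by omega
    exact_mod_cast this
  have hm2 : 2 * ((M / 2 : ℕ) : ℝ) ≤ M := by
    have : 2 * (M / 2) ≤ M := by omega
    exact_mod_cast this
  have hm3 : (M : ℝ) ≤ 2 * ((M - M / 2 : ℕ) : ℝ) := by
    have : M ≤ 2 * (M - M / 2) := by omega
    exact_mod_cast this
  have hM8 : (8 : ℝ) ≤ M := by exact_mod_cast hM
  have hd := LTR_deep M y0 p hy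
  rw [Finset.sum_sub_distrib] at h1 h2
  rw [Finset.sum_sub_distrib, Finset.sum_const, Finset.card_range, nsmul_eq_mul, mul_one] at hd
  have hK := LTR_Kc M p (M / 2) M
  unfold EE Dp
  rw [Finset.mem_filter]
  refine ⟨Finset.mem_univ p, ?_, ?_⟩
  · have e1 : (A + c2 / 4) * ((M / 2 : ℕ) : ℝ) ≤ (1 - 4 * c2 + c2 / 4) * ((M / 2 : ℕ) : ℝ) :=
      mul_le_mul_of_nonneg_right (by linarith) (Nat.cast_nonneg _)
    nlinarith
  · have e1 : (1 / 30 - 1 / 200) * ((M - M / 2 : ℕ) : ℝ) ≤ (A' - 1 / 200) * ((M - M / 2 : ℕ) : ℝ) :=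
      mul_le_mul_of_nonneg_right (by linarith) (Nat.cast_nonneg _)
    have e2 : (M : ℝ) ≤ 100 * (Kc (ex p) (M / 2) M : ℝ) := by
      rw [hK]
      linarith
    exact_mod_cast e2

lemma LTR_fin (M y0 : ℕ) (c2 A A' : ℝ) (hc2 : 0 < c2) (hc2' : c2 ≤ 1) (hM : 8 ≤ M) (hy : 1 ≤ y0)
    (κ : ℕ → ℝ) (hκ : ∀ i, 0 ≤ κ i ∧ κ i ≤ 1) (hA : A < 1 - 4 * c2) (hA' : 1 / 30 ≤ A')
    (h4 : ∑ i ∈ Finset.range (M / 2), κ i ≤ (A + c2 / 4) * ((M / 2 : ℕ) : ℝ))
    (h5 : (A' - 1 / 200) * ((M - M / 2 : ℕ) : ℝ) ≤ ∑ i ∈ Finset.Ico (M / 2) M, κ i) :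
    1 - ∑ p ∈ EE M y0 c2, lw M κ p ≤ 4 / ((c2 / 4) ^ 2 * ((M / 2 : ℕ) : ℝ)) +
      4 / ((1 / 200) ^ 2 * ((M - M / 2 : ℕ) : ℝ)) +
      2 / (c2 * M) * ∑ z ∈ PP M y0, (1 - κ z.1) * κ (z.1 + z.2) := by
  classical
  have hM0 : (0 : ℝ) < M := by
    have : 0 < M := by omega
    exact_mod_cast this
  obtain ⟨B1, hB1⟩ : ∃ B1 : Finset (Fin M → Bool), B1 = Finset.univ.filter (fun p =>
    c2 / 4 * ((Finset.range (M / 2)).card : ℝ) ≤ 1 * ∑ i ∈ Finset.range (M / 2),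
      (iK (ex p i) - κ i)) := ⟨_, rfl⟩
  obtain ⟨B2, hB2⟩ : ∃ B2 : Finset (Fin M → Bool), B2 = Finset.univ.filter (fun p =>
    1 / 200 * ((Finset.Ico (M / 2) M).card : ℝ) ≤ (-1) * ∑ i ∈ Finset.Ico (M / 2) M,
      (iK (ex p i) - κ i)) := ⟨_, rfl⟩
  obtain ⟨B3, hB3⟩ : ∃ B3 : Finset (Fin M → Bool), B3 = Finset.univ.filter (fun p =>
    c2 * M / 2 ≤ ∑ z ∈ PP M y0, (1 - iK (ex p z.1)) * iK (ex p (z.1 + z.2))) := ⟨_, rfl⟩
  have hsub : (Finset.univ \ EE M y0 c2) ⊆ B1 ∪ (B2 ∪ B3) := by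
    intro p hp
    rw [Finset.mem_sdiff] at hp
    by_contra hcon
    rw [Finset.mem_union, Finset.mem_union, not_or, not_or, hB1, hB2, hB3] at hcon
    obtain ⟨g1, g2, g3⟩ := hcon
    rw [Finset.mem_filter, not_and, Finset.card_range, one_mul] at g1
    rw [Finset.mem_filter, not_and, Nat.card_Ico] at g2
    rw [Finset.mem_filter, not_and] at g3
    have k1 := not_le.1 (g1 (Finset.mem_univ p))
    have k2 := not_le.1 (g2 (Finset.mem_univ p))
    have k3 := not_le.1 (g3 (Finset.mem_univ p))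
    exact hp.2 (LTR_mem M y0 c2 A A' hc2 hM hy κ hA hA' h4 h5 p k1 (by linarith) k3)
  have hnn := LTR_nn M κ hκ
  have hone : 1 - ∑ p ∈ EE M y0 c2, lw M κ p = ∑ p ∈ (Finset.univ \ EE M y0 c2), lw M κ p := by
    rw [← LTR_one M κ, ← Finset.sum_sdiff (Finset.subset_univ (EE M y0 c2))]
    ring
  rw [hone]
  have hu1 : ∑ p ∈ (Finset.univ \ EE M y0 c2), lw M κ p ≤ ∑ p ∈ B1 ∪ (B2 ∪ B3), lw M κ p :=
    Finset.sum_le_sum_of_subset_of_nonneg hsub (fun p _ _ => hnn p)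
  have hun : ∀ S T : Finset (Fin M → Bool), ∑ p ∈ S ∪ T, lw M κ p ≤
      ∑ p ∈ S, lw M κ p + ∑ p ∈ T, lw M κ p := by
    intro S T
    rw [← Finset.sum_union_inter]
    have : 0 ≤ ∑ p ∈ S ∩ T, lw M κ p := Finset.sum_nonneg (fun p _ => hnn p)
    linarith
  have hu2 := hun B1 (B2 ∪ B3)
  have hu3 := hun B2 B3
  have hc1 := LTR_cher M κ hκ (Finset.range (M / 2)) (by
    intro i hi
    rw [Finset.mem_range] at hi ⊢
    omega) (by
    rw [Finset.card_range]
    omega) (c2 / 4) 1 (by linarith) (by linarith) (by norm_num) B1 (by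
    intro p hp
    rw [hB1, Finset.mem_filter] at hp
    exact hp.2)
  have hc2 := LTR_cher M κ hκ (Finset.Ico (M / 2) M) (by
    intro i hi
    rw [Finset.mem_Ico] at hi
    rw [Finset.mem_range]
    omega) (by
    rw [Nat.card_Ico]
    omega) (1 / 200) (-1) (by norm_num) (by norm_num) (by norm_num) B2 (by
    intro p hp
    rw [hB2, Finset.mem_filter] at hp
    exact hp.2)
  rw [Finset.card_range] at hc1
  rw [Nat.card_Ico] at hc2
  have hb3 : ∑ p ∈ B3, lw M κ p ≤ 2 / (c2 * M) * ∑ z ∈ PP M y0, (1 - κ z.1) * κ (z.1 + z.2) := by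
    have q1 : ∑ p : Fin M → Bool, lw M κ p * ∑ z ∈ PP M y0,
        (1 - iK (ex p z.1)) * iK (ex p (z.1 + z.2)) =
        ∑ z ∈ PP M y0, (1 - κ z.1) * κ (z.1 + z.2) := by
      have q2 : ∀ p : Fin M → Bool, lw M κ p * ∑ z ∈ PP M y0,
          (1 - iK (ex p z.1)) * iK (ex p (z.1 + z.2)) = ∑ z ∈ PP M y0, lw M κ p *
          ((1 - iK (ex p z.1)) * iK (ex p (z.1 + z.2))) := fun p => Finset.mul_sum _ _ _
      rw [Finset.sum_congr rfl (fun p _ => q2 p), Finset.sum_comm]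
      refine Finset.sum_congr rfl ?_
      intro z hz
      unfold PP at hz
      rw [Finset.mem_filter, Finset.mem_product, Finset.mem_range, Finset.mem_Ico] at hz
      exact LTR_pair M κ z.1 (z.1 + z.2) (by omega) hz.2 (by omega)
    have q3 : (c2 * M / 2) * ∑ p ∈ B3, lw M κ p ≤ ∑ p : Fin M → Bool, lw M κ p * ∑ z ∈ PP M y0,
        (1 - iK (ex p z.1)) * iK (ex p (z.1 + z.2)) := by
      rw [Finset.mul_sum]
      refine le_trans (Finset.sum_le_sum ?_) (Finset.sum_le_sum_of_subset_of_nonneg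
        (Finset.subset_univ B3) ?_)
      · intro p hp
        rw [hB3, Finset.mem_filter] at hp
        rw [mul_comm]
        exact mul_le_mul_of_nonneg_left hp.2 (hnn p)
      · intro p _ _
        exact mul_nonneg (hnn p) (Finset.sum_nonneg (fun z _ =>
          mul_nonneg (LTR_iK1 _) (LTR_iK0 _)))
    rw [q1] at q3
    have q4 : ∑ p ∈ B3, lw M κ p = 2 / (c2 * M) * ((c2 * M / 2) * ∑ p ∈ B3, lw M κ p) := by
      field_simp
    rw [q4]
    exact mul_le_mul_of_nonneg_left q3 (by positivity)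
  linarith

end

end Pool.Agent.T1
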