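import Pool.Agent.helper63.T1.LTRb

/-!
# T1, row t1:LTR, part 3: averages
-/

set_option autoImplicit false

open scoped MatrixGroups ContDiff Topology UpperHalfPlane ComplexConjugate
open UpperHalfPlane MeasureTheory Filter Set

namespace Pool.Agent.T1

noncomputable section

lemma LTR_int {X : Type} [MeasurableSpace X] (P : Measure X) [IsFiniteMeasure P] (f : X → ℝ)
    (hf : Measurable f) (C : ℝ) (h : ∀ x, |f x| ≤ C) : Integrable f P :=
  Integrable.of_bound hf.aestronglyMeasurable C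
    (ae_of_all _ (fun x => by rw [Real.norm_eq_abs]; exact h x))

/-- the mean deviation on one block -/
def Gd {X : Type} (k : ℝ → X → ℝ) (n : ℝ) (i : ℕ) (x : X) : ℝ :=
  ∫ s in Set.Ioc ((i : ℝ) * n) (((i + 1 : ℕ) : ℝ) * n), |k s x - k (i * n) x|

lemma LTR_meas {X : Type} [MeasurableSpace X] (k : ℝ → X → ℝ)
    (hk : Measurable (Function.uncurry k)) (c : ℝ) :
    Measurable (Function.uncurry (fun (x : X) (s : ℝ) => |k s x - k c x|)) := by
  have h1 : Measurable (fun z : X × ℝ => k z.2 z.1) := hk.comp (measurable_snd.prodMk measurable_fst)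
  have h2 : Measurable (fun z : X × ℝ => k c z.1) :=
    (hk.of_uncurry_left (x := c)).comp measurable_fst
  exact (h1.sub h2).norm

lemma LTR_Gm {X : Type} [MeasurableSpace X] (k : ℝ → X → ℝ)
    (hk : Measurable (Function.uncurry k)) (n : ℝ) (i : ℕ) : Measurable (Gd k n i) := by
  unfold Gd
  exact (StronglyMeasurable.integral_prod_right (ν := volume.restrict
    (Set.Ioc ((i : ℝ) * n) (((i + 1 : ℕ) : ℝ) * n)))
    (LTR_meas k hk (i * n)).stronglyMeasurable).measurable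

lemma LTR_kabs {X : Type} (k : ℝ → X → ℝ) (h01 : ∀ s x, 0 ≤ k s x ∧ k s x ≤ 1) (s s' : ℝ) (x : X) :
    |k s x - k s' x| ≤ 1 := by
  rw [abs_le]
  constructor
  · linarith [(h01 s x).1, (h01 s' x).2]
  · linarith [(h01 s x).2, (h01 s' x).1]

lemma LTR_Gb {X : Type} (k : ℝ → X → ℝ) (h01 : ∀ s x, 0 ≤ k s x ∧ k s x ≤ 1) (n : ℝ) (hn : 0 < n)
    (i : ℕ) (x : X) : 0 ≤ Gd k n i x ∧ Gd k n i x ≤ n := by
  unfold Gd
  constructor
  · exact integral_nonneg (fun s => abs_nonneg _)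
  · have h1 := norm_setIntegral_le_of_norm_le_const
      (μ := volume) (s := Set.Ioc ((i : ℝ) * n) (((i + 1 : ℕ) : ℝ) * n))
      (f := fun s => |k s x - k (i * n) x|) (C := 1) measure_Ioc_lt_top (by
        intro s _
        rw [Real.norm_eq_abs, abs_abs]
        exact LTR_kabs k h01 _ _ _)
    rw [Real.volume_real_Ioc_of_le (by push_cast; nlinarith), one_mul] at h1
    have h2 := le_abs_self (∫ s in Set.Ioc ((i : ℝ) * n) (((i + 1 : ℕ) : ℝ) * n),
      |k s x - k (i * n) x|)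
    rw [Real.norm_eq_abs] at h1
    have h3 : (((i + 1 : ℕ) : ℝ) * n) - ((i : ℝ) * n) = n := by push_cast; ring
    linarith

/-- the deviation of the two averages -/
lemma LTR_dev {X : Type} [MeasurableSpace X] (k : ℝ → X → ℝ)
    (hk : Measurable (Function.uncurry k)) (h01 : ∀ s x, 0 ≤ k s x ∧ k s x ≤ 1) (n : ℝ)
    (hn : 0 < n) (m1 m2 : ℕ) (hm : m1 < m2) (x : X) :
    |avk k (m1 * n) (m2 * n) x - ((m2 : ℝ) - m1)⁻¹ * ∑ i ∈ Finset.Ico m1 m2, k (i * n) x| ≤
      (((m2 : ℝ) - m1) * n)⁻¹ * ∑ i ∈ Finset.Ico m1 m2, Gd k n i x := by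
  have hmr : (0 : ℝ) < (m2 : ℝ) - m1 := by
    have : (m1 : ℝ) < m2 := by exact_mod_cast hm
    linarith
  have hkx : Measurable (fun s => k s x) := hk.comp (measurable_id.prodMk measurable_const)
  have hii : ∀ a b : ℝ, IntervalIntegrable (fun s => k s x) volume a b := by
    intro a b
    rw [intervalIntegrable_iff]
    haveI : IsFiniteMeasure (volume.restrict (Set.uIoc a b)) :=
      ⟨by rw [Measure.restrict_apply_univ, Set.uIoc]; exact measure_Ioc_lt_top⟩
    exact LTR_int _ _ hkx 1 (fun s => by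
      rw [abs_le]
      constructor <;> linarith [(h01 s x).1, (h01 s x).2])
  have hsum : ∫ s in ((m1 : ℝ) * n)..((m2 : ℝ) * n), k s x =
      ∑ i ∈ Finset.Ico m1 m2, ∫ s in ((i : ℝ) * n)..(((i + 1 : ℕ) : ℝ) * n), k s x := by
    rw [← intervalIntegral.sum_integral_adjacent_intervals_Ico (a := fun i : ℕ => (i : ℝ) * n)
      hm.le (fun i _ => hii _ _)]
  have hconst : ∀ i : ℕ, n * k (i * n) x =
      ∫ s in ((i : ℝ) * n)..(((i + 1 : ℕ) : ℝ) * n), k (i * n) x := by
    intro i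
    rw [intervalIntegral.integral_const, smul_eq_mul]
    push_cast
    ring
  have hdiff : avk k (m1 * n) (m2 * n) x -
      ((m2 : ℝ) - m1)⁻¹ * ∑ i ∈ Finset.Ico m1 m2, k (i * n) x =
      (((m2 : ℝ) - m1) * n)⁻¹ * ∑ i ∈ Finset.Ico m1 m2,
        ∫ s in ((i : ℝ) * n)..(((i + 1 : ℕ) : ℝ) * n), (k s x - k (i * n) x) := by
    have e1 : ∑ i ∈ Finset.Ico m1 m2,
        ∫ s in ((i : ℝ) * n)..(((i + 1 : ℕ) : ℝ) * n), (k s x - k (i * n) x) =
        (∫ s in ((m1 : ℝ) * n)..((m2 : ℝ) * n), k s x) -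
        n * ∑ i ∈ Finset.Ico m1 m2, k (i * n) x := by
      rw [hsum, Finset.mul_sum, ← Finset.sum_sub_distrib]
      refine Finset.sum_congr rfl ?_
      intro i _
      rw [hconst i, intervalIntegral.integral_sub (hii _ _) intervalIntegrable_const]
    rw [e1]
    unfold avk
    have e2 : (m2 : ℝ) * n - m1 * n = ((m2 : ℝ) - m1) * n := by ring
    rw [e2, mul_sub]
    congr 1
    have hn' : n ≠ 0 := hn.ne'
    obtain ⟨T, hT⟩ : ∃ T : ℝ, T = ∑ i ∈ Finset.Ico m1 m2, k (i * n) x := ⟨_, rfl⟩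
    rw [← hT]
    field_simp
  rw [hdiff, abs_mul, abs_of_pos (by positivity)]
  refine mul_le_mul_of_nonneg_left ?_ (by positivity)
  refine (Finset.abs_sum_le_sum_abs _ _).trans (Finset.sum_le_sum ?_)
  intro i _
  unfold Gd
  have hle : (i : ℝ) * n ≤ ((i + 1 : ℕ) : ℝ) * n := by push_cast; nlinarith
  have h1 := intervalIntegral.norm_integral_le_integral_norm (μ := volume)
    (f := fun s => k s x - k (i * n) x) hle
  rw [intervalIntegral.integral_of_le hle] at h1
  rw [Real.norm_eq_abs] at h1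
  rw [intervalIntegral.integral_of_le hle] at h1 ⊢
  exact h1

end

end Pool.Agent.T1
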